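import Pool.Agent.helper25.TW.Spec

/-!
# REA: black at the site gives a black crossing (project TW)
-/

set_option autoImplicit false

namespace TP.TW

open DP MeasureTheory Finset

theorem REA_adj {u v : V} (h : Adj u v) : (u.2 - v.2).natAbs ≤ 1 ∧ (I u - I v).natAbs ≤ 1 := by
  obtain ⟨h1, h2⟩ := h
  unfold DP.sd at h1
  unfold I
  rw [Int.even_iff] at h2
  constructor
  · omega
  · omega

theorem REA_dI_adj {a b : V} (h : Adj a b) (w : V) : dI w b ≤ dI w a + 1 := by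
  obtain ⟨h1, h2⟩ := REA_adj h
  unfold dI
  omega

theorem REA_I_br (v : V) : I (br v) = I v := by
  unfold br I
  split_ifs with h
  · rfl
  · show (v.1 - 1 - v.2) / 2 = (v.1 - v.2) / 2
    omega

theorem REA_br_snd (v : V) : (br v).2 = v.2 := by
  unfold br
  split_ifs with h
  · rfl
  · rfl

theorem REA_same {w v₀ : V} (h0 : br v₀ = v₀) (h1 : I w = I v₀) (h2 : w.2 = v₀.2) : br w = v₀ := by
  have he : (v₀.1 + v₀.2) % 2 = 0 := by
    by_contra hc
    unfold br at h0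
    rw [if_neg hc] at h0
    have := congrArg Prod.fst h0
    dsimp only at this
    omega
  unfold I at h1
  unfold br
  split_ifs with h
  · ext
    · omega
    · omega
  · ext
    · show w.1 - 1 = v₀.1
      omega
    · show w.2 = v₀.2
      omega

/-- First part: the path meets the row. -/
theorem REA_row {W : Set V} {u v : V} (h : DP.Con W u v) (q : ℤ) (hu : u.2 ≤ q) (hv : q ≤ v.2) :
    ∃ w : V, w.2 = q ∧ DP.Con W u w ∧ DP.Con W w v := by
  have key : (v.2 ≤ q ∧ DP.Con W u v) ∨ ∃ w : V, w.2 = q ∧ DP.Con W u w ∧ DP.Con W w v := by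
    refine DP.Con.induct h (fun a => (a.2 ≤ q ∧ DP.Con W u a) ∨ ∃ w : V, w.2 = q ∧ DP.Con W u w ∧ DP.Con W w a)
      (Or.inl ⟨hu, DP.Con.refl h.1⟩) ?_
    rintro a b ha hb hab - (⟨h1, h2⟩ | ⟨w, h1, h2, h3⟩)
    · obtain ⟨h4, -⟩ := REA_adj hab
      by_cases hbq : b.2 ≤ q
      · exact Or.inl ⟨hbq, h2.tail hab hb⟩
      · exact Or.inr ⟨a, by omega, h2, DP.Con.single ha hab hb⟩
    · exact Or.inr ⟨w, h1, h2, h3.tail hab hb⟩
  rcases key with ⟨h1, h2⟩ | h1
  · exact ⟨v, le_antisymm h1 hv, h2, DP.Con.refl (DP.Con.mem_right h)⟩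
  · exact h1

/-- Second part: the part of the path near `w`. -/
theorem REA_near {W : Set V} {w t : V} (h : DP.Con W w t) (r : ℕ) (hr : 1 ≤ r)
    (ht : r ≤ 8 * dI w t) :
    ∃ z : V, DP.Con {y | y ∈ W ∧ 8 * dI w y < r} w z ∧ r ≤ 8 * (dI w z + 1) := by
  have h0 : dI w w = 0 := by
    unfold dI
    omega
  have key : (8 * dI w t < r ∧ DP.Con {y | y ∈ W ∧ 8 * dI w y < r} w t) ∨
      ∃ z : V, DP.Con {y | y ∈ W ∧ 8 * dI w y < r} w z ∧ r ≤ 8 * (dI w z + 1) := by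
    refine DP.Con.induct h (fun a => (8 * dI w a < r ∧ DP.Con {y | y ∈ W ∧ 8 * dI w y < r} w a) ∨
      ∃ z : V, DP.Con {y | y ∈ W ∧ 8 * dI w y < r} w z ∧ r ≤ 8 * (dI w z + 1))
      (Or.inl ⟨by omega, DP.Con.refl ⟨h.1, by omega⟩⟩) ?_
    rintro a b ha hb hab - (⟨h1, h2⟩ | h1)
    · have h3 := REA_dI_adj hab w
      by_cases hbr : 8 * dI w b < r
      · exact Or.inl ⟨hbr, h2.tail hab ⟨hb, hbr⟩⟩
      · exact Or.inr ⟨a, h2, by omega⟩
    · exact Or.inr h1
  rcases key with ⟨h1, -⟩ | h1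
  · omega
  · exact h1

theorem REA_fil_S {β : V → Bool} {S : Finset V} {v₀ y : V} {q : Bool} (h : br y ∈ S) :
    col (fil β S v₀ q) y = col β y := by
  show fil β S v₀ q (br y) = β (br y)
  unfold fil
  rw [if_pos h]

theorem REA (tqd : TQD_stmt) : REA_stmt := by
  intro β m S v₀ hm hv hbr hS hbad
  by_contra hH
  rcases tqd (col (fil β S v₀ true)) m hm with h | h
  · exact hH h
  obtain ⟨u, v, hu, hv2, hc⟩ := h
  have hvr : 0 ≤ v₀.2 ∧ v₀.2 ≤ m ∧ v₀.2 ≤ v₀.1 ∧ v₀.1 ≤ 2 * m + 1 + v₀.2 := hv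
  have hc' : DP.Con {w | w ∈ rh m ∧ col (fil β S v₀ true) w = false} u v := hc
  obtain ⟨w, hw2, huw, hwv⟩ := REA_row hc' v₀.2 (by omega) (by omega)
  have hwW := DP.Con.mem_right huw
  have hwr : 0 ≤ w.2 ∧ w.2 ≤ m ∧ w.2 ≤ w.1 ∧ w.1 ≤ 2 * m + 1 + w.2 := hwW.1
  have hwc : col (fil β S v₀ true) w = false := hwW.2
  -- the site is not in the brick
  have hne : I w ≠ I v₀ := by
    intro hI
    have hb := REA_same hbr hI hw2
    have h1 : fil β S v₀ true (br w) = false := hwc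
    rw [hb] at h1
    unfold fil at h1
    rw [if_neg hS, if_pos rfl] at h1
    exact absurd h1 (by decide)
  obtain ⟨r, hr⟩ : ∃ r : ℕ, r = dI v₀ w := ⟨_, rfl⟩
  have hrI : r = (I v₀ - I w).natAbs := by
    rw [hr]
    unfold dI
    omega
  have hr1 : 1 ≤ r := by omega
  have hIw : 0 ≤ I w ∧ I w ≤ m := by
    unfold I
    constructor <;> omega
  have hIv : 0 ≤ I v₀ ∧ I v₀ ≤ m := by
    unfold I
    constructor <;> omega
  have hrm : (r : ℤ) ≤ m := by omega
  -- the far end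
  obtain ⟨t, hwt, ht⟩ : ∃ t : V, DP.Con {w | w ∈ rh m ∧ col (fil β S v₀ true) w = false} w t ∧
      r ≤ 8 * dI w t := by
    rcases le_or_gt m (2 * w.2) with h | h
    · refine ⟨u, huw.symm, ?_⟩
      unfold dI
      omega
    · refine ⟨v, hwv, ?_⟩
      unfold dI
      omega
  obtain ⟨z, hz, hzr⟩ := REA_near hwt r hr1 ht
  apply hbad
  refine ⟨false, w, z, Or.inr hw2, by omega, by omega, ?_⟩
  show DP.Con {y | y ∈ til S ∧ col β y = false} w z
  refine DP.Con.mono ?_ hz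
  rintro y ⟨⟨hy1, hy2⟩, hy3⟩
  have hyS : br y ∈ S := by
    by_contra hyn
    have h1 : fil β S v₀ true (br y) = false := hy2
    unfold fil at h1
    rw [if_neg hyn] at h1
    by_cases hyv : br y = v₀
    · rw [if_pos hyv] at h1
      exact absurd h1 (by decide)
    · rw [if_neg hyv] at h1
      have h2 := of_decide_eq_false h1
      rw [REA_I_br, REA_br_snd] at h2
      unfold dI at hy3
      omega
  refine ⟨hyS, ?_⟩
  rw [← REA_fil_S (β := β) (v₀ := v₀) (q := true) hyS]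
  exact hy2

end TP.TW
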